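import Pool.Agent.W973.SRR.Main

/-!
# Rationalizing four matchings of the stable roommates problem is NP-complete

An instance is a number `n` of agents and a list of matchings of the agents; the question is
whether there are complete strict preference lists for which all these matchings are stable. We
prove that the problem is in `NP` and that it is `NP`-hard, already for lists of four perfect
matchings.

## The reduction

We start with a not-all-equal formula with three literals in each clause, in which the variables
are coloured with three colours `0, 1, 2` and the literal in the position `k` of each clause has the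
colour `k`. There are two agents `V_c, W_c` for every clause `c` and two agents `P_i, Q_i` for
every literal occurrence `i`. The base matching has the pairs `V_c W_c` and `P_i Q_i`. The matching
of the colour `k` has the pairs `V_c P_i` and `W_c Q_(i-1)` for every clause `c` and its occurrence
`i` of the colour `k` (`i-1` is the previous occurrence of the clause, cyclically), the pairs
`P_j Q_j` for the occurrences `j = i+1`, and it joins the remaining agents `Q_i` and `P_(i-1)` with
such agents of the next and the previous occurrence of the same variable, in a cyclic order.

If two perfect matchings are stable then every pair of one of them that is not in the other one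
has exactly one end which prefers it (`S_ALT`). So all agents on a cycle of the union of two
matchings alternate. For the base matching and the matching of a colour there is a cycle for
every variable, which gives a truth value; the connections are such that `V_c` prefers the matching
of the colour of `i` to the base matching if and only if the literal `i` is true. The pair
`P_j Q_j` is in the base matching and in two of the three matchings of the colours,
so the preference of `V_c` between the occurrences `j-1` and `j` is the same as the one between the
base matching and `j`. The preferences of `V_c` on its three neighbours `P_i` are not cyclic, so the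
clause is not all-equal. Conversely, an assignment defines scores for the preferences such that
there are no blocking pairs (`S4_SC`).
-/

set_option autoImplicit false

namespace Pool.Agent.Results.MP_3056b9_lc.FourMatchingsNPComplete

open Pool.Agent.NPC Pool.Agent.H673R2 Pool.Agent.W973.SRR

/-- All matchings of the instance are perfect. -/
def Perfect (I : Inst) : Prop := ∀ M ∈ I.2, ∀ a < I.1.length, ∃ b, Matched M a b

theorem perfect (ψ : CNF) (hC : Col ψ) : Perfect (red4 ψ) := by
  intro M hM a ha
  have hlen : (red4 ψ).1.length = 8 * ψ.length := by simp [red4]
  rw [hlen] at ha
  simp only [red4, List.mem_cons, List.not_mem_nil, or_false] at hM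
  rcases hM with rfl | rfl | rfl | rfl
  · exact ⟨_, ((Pool.Agent.W675.SRR.prsT _ _ (pinv ψ hC _)).2 a _).2 ⟨ha, rfl⟩⟩
  · exact ⟨_, ((Pool.Agent.W675.SRR.prsT _ _ (pinv ψ hC _)).2 a _).2 ⟨ha, rfl⟩⟩
  · exact ⟨_, ((Pool.Agent.W675.SRR.prsT _ _ (pinv ψ hC _)).2 a _).2 ⟨ha, rfl⟩⟩
  · exact ⟨_, ((Pool.Agent.W675.SRR.prsT _ _ (pinv ψ hC _)).2 a _).2 ⟨ha, rfl⟩⟩

/-- Deciding whether a set of matchings can be rationalized by a stable roommates instance is in
`NP`, and it is `NP`-hard for lists of four perfect matchings. -/
theorem result :
    InNPP (fun I : Inst => Valid I ∧ Rationalizable I) ∧
    NPHardOn (fun I : Inst => Valid I ∧ Perfect I ∧ I.2.length = 4) Rationalizable :=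
  ⟨pmem, npHardOn_of hardPr_SAT3 poly_fred
    (fun _ _ => ⟨pval _ (pcol _).1, perfect _ (pcol _).1, rfl⟩)
    (fun φ hφ => ⟨fun h => pbwd _ (pcol _).1
        ((pcol _).2.1 (((Pool.Agent.W108.SRR.nae φ hφ).2).1 h)),
      fun h => ((Pool.Agent.W108.SRR.nae φ hφ).2).2 ((pcol _).2.2 (pfwd _ (pcol _).1 h))⟩)⟩

end Pool.Agent.Results.MP_3056b9_lc.FourMatchingsNPComplete
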